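import Mathlib

/-! # Quadratic range theorem for Tate characters (project QR): definitions and basic lemmas -/

namespace Pool.Agent.helper76.LP

open Finset

/-! ### functions on `ZMod m` -/

/-- the odd sawtooth on `ZMod m`, times `2 m` -/
def saw (m : ℕ) (x : ZMod m) : ℤ := if x = 0 then 0 else 2 * (x.val : ℤ) - m

/-- the Tate condition -/
def TateF {m : ℕ} [NeZero m] (F : ZMod m → ℤ) : Prop :=
  ∀ t : (ZMod m)ˣ, ∑ x, F x * saw m ((t : ZMod m) * x) = 0

/-- antisymmetrisation -/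
def anti {m : ℕ} (c : ZMod m → ℤ) (x : ZMod m) : ℤ := c x - c (-x)

/-- the embedding of `ZMod d` in `ZMod m`, `d ∣ m`, `y ↦ y m / d` -/
def emb (d m : ℕ) (y : ZMod d) : ZMod m := ((y.val * (m / d) : ℕ) : ZMod m)

/-- the function on `ZMod m` with values `n z` at the points `emb d m z`, `z` a unit, and `0`
elsewhere -/
def ext (d m : ℕ) [NeZero d] (n : (ZMod d)ˣ → ℤ) (x : ZMod m) : ℤ :=
  ∑ z : (ZMod d)ˣ, if emb d m (z : ZMod d) = x then n z else 0

/-- weight of an order -/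
def wo (e : ℕ) : ℤ := if e % 4 = 2 then 2 else 1

/-- weighted norm -/
noncomputable def normw {m : ℕ} [NeZero m] (F : ZMod m → ℤ) : ℤ := ∑ x, wo (addOrderOf x) * |F x|

/-- units modulo `d` congruent to 1 modulo `d / p` -/
def Gam (d p : ℕ) : Subgroup (ZMod d)ˣ :=
  if h : p ∣ d then (ZMod.unitsMap (Nat.div_dvd_of_dvd h)).ker else ⊥

/-- the operator `ν ↦ ν - [p ∤ e] ν(p ·)` on functions on `(ZMod e)ˣ` -/
def Rop (p e : ℕ) (ν : (ZMod e)ˣ → ℤ) (y : (ZMod e)ˣ) : ℤ :=
  ν y - if h : p.Coprime e then ν (ZMod.unitOfCoprime p h * y) else 0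

/-! ### iterated differences along subgroups -/

section MD
variable {G ι : Type*} [CommGroup G]

/-- the iterated differences along the subgroups `Γ i`, `i` in the list, vanish -/
def MDv (Γ : ι → Subgroup G) : List ι → (G → ℤ) → Prop
  | [], f => ∀ x, f x = 0
  | i :: L, f => ∀ u ∈ Γ i, MDv Γ L (fun x => f (u * x) - f x)

/-- the subgroup generated by the `Γ i`, `i` in the list -/
def Pl (Γ : ι → Subgroup G) : List ι → Subgroup G
  | [] => ⊥
  | i :: L => Γ i ⊔ Pl Γ L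

/-- independence of the `Γ i`, `i` in the list -/
def Indep (Γ : ι → Subgroup G) : List ι → Prop
  | [] => True
  | i :: L => Disjoint (Γ i) (Pl Γ L) ∧ Indep Γ L

/-- number of points of the support of `f` in the coset of `a` modulo `Pl Γ L` -/
noncomputable def Sl (Γ : ι → Subgroup G) (L : List ι) (f : G → ℤ) (a : G) : ℕ :=
  Nat.card {x : G // x * a⁻¹ ∈ Pl Γ L ∧ f x ≠ 0}

/-- `1` for odd `n`, `2` for even `n` -/
def om (n : ℕ) : ℕ := if Even n then 2 else 1

/-- decomposition of `f` into functions invariant under the `Γ i` -/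
def StrDec [Fintype G] (Γ : ι → Subgroup G) (L : List ι) (f : G → ℤ) : Prop :=
  ∃ N : ι → G → ℤ, (∀ i ∈ L, ∀ u ∈ Γ i, ∀ x, N i (u * x) = N i x) ∧
    (∀ x, f x = (L.map (fun i => N i x)).sum) ∧
    (∀ e : G, (∀ x, f (e * x) = - f x) → ∀ i ∈ L, ∀ x, N i (e * x) = - N i x) ∧
    (L.map (fun i => (om (Nat.card (Γ i)) : ℚ) * ((∑ x, |N i x| : ℤ) : ℚ) /
      (Nat.card (Γ i) : ℚ))).sum ≤ ((∑ x, |f x| : ℤ) : ℚ)

end MD

/-- cost factor of the direction `p` -/
def kap (D p : ℕ) : ℤ := (if p ^ 2 ∣ D then 1 else 2) * wo (D / p)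

/-- decomposition of an odd function on the units modulo `D` into functions invariant under the
`Gam D p`, with a bound for the cost -/
def Dec (D : ℕ) [NeZero D] (f : (ZMod D)ˣ → ℤ) : Prop :=
  ∃ N : ℕ → (ZMod D)ˣ → ℤ, (∀ p ∈ D.primeFactors, ∀ u ∈ Gam D p, ∀ x, N p (u * x) = N p x) ∧
    (∀ x, f x = ∑ p ∈ D.primeFactors, N p x) ∧
    (∀ p ∈ D.primeFactors, ∀ x, N p (-x) = - N p x) ∧
    ∑ p ∈ D.primeFactors, (kap D p : ℚ) * ((∑ x, |N p x| : ℤ) : ℚ) / (Nat.card (Gam D p) : ℚ)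
      ≤ (wo D : ℚ) * ((∑ x, |f x| : ℤ) : ℚ)

/-! ### basic lemmas on `emb` -/

lemma emb_natCast {d m : ℕ} (hd : d ∣ m) (k : ℕ) :
    emb d m (k : ZMod d) = ((k * (m / d) : ℕ) : ZMod m) := by
  unfold emb
  rw [ZMod.natCast_eq_natCast_iff, ZMod.val_natCast]
  obtain ⟨e, rfl⟩ := hd
  rcases Nat.eq_zero_or_pos d with rfl | hd0
  · simp
  · rw [Nat.mul_div_cancel_left _ hd0]
    exact Nat.ModEq.mul_right' e (Nat.mod_modEq k d)

lemma emb_add {d m : ℕ} [NeZero d] (hd : d ∣ m) (x y : ZMod d) :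
    emb d m (x + y) = emb d m x + emb d m y := by
  have h : x + y = ((x.val + y.val : ℕ) : ZMod d) := by
    push_cast
    rw [ZMod.natCast_zmod_val, ZMod.natCast_zmod_val]
  rw [h, emb_natCast hd]
  unfold emb
  push_cast
  ring

lemma emb_zero {d m : ℕ} : emb d m 0 = 0 := by
  unfold emb; simp

lemma emb_neg {d m : ℕ} [NeZero d] (hd : d ∣ m) (x : ZMod d) : emb d m (-x) = - emb d m x := by
  have h := emb_add hd x (-x)
  rw [add_neg_cancel, emb_zero] at h
  exact (neg_eq_of_add_eq_zero_right h.symm).symm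

lemma emb_val {d m : ℕ} [NeZero m] (hd : d ∣ m) (x : ZMod d) :
    (emb d m x).val = x.val * (m / d) := by
  have hm : 0 < m := Nat.pos_of_ne_zero (NeZero.ne m)
  have hd0 : 0 < d := Nat.pos_of_dvd_of_pos hd hm
  have : NeZero d := ⟨hd0.ne'⟩
  unfold emb
  rw [ZMod.val_natCast, Nat.mod_eq_of_lt]
  obtain ⟨e, rfl⟩ := hd
  rw [Nat.mul_div_cancel_left _ hd0]
  have he : 0 < e := Nat.pos_of_ne_zero (by rintro rfl; simp at hm)
  exact Nat.mul_lt_mul_of_pos_right (ZMod.val_lt x) he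

lemma emb_injective {d m : ℕ} [NeZero m] (hd : d ∣ m) : Function.Injective (emb d m) := by
  intro x y h
  have hm : 0 < m := Nat.pos_of_ne_zero (NeZero.ne m)
  have hd0 : 0 < d := Nat.pos_of_dvd_of_pos hd hm
  have : NeZero d := ⟨hd0.ne'⟩
  have h1 := congrArg ZMod.val h
  rw [emb_val hd, emb_val hd] at h1
  have h2 : 0 < m / d := Nat.div_pos (Nat.le_of_dvd hm hd) hd0
  exact ZMod.val_injective d (Nat.eq_of_mul_eq_mul_right h2 h1)

/-- multiplication by a unit of `ZMod m` -/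
lemma mul_emb {d m : ℕ} [NeZero m] [NeZero d] (hd : d ∣ m) (t : ZMod m) (y : ZMod d) :
    t * emb d m y = emb d m ((ZMod.castHom hd (ZMod d) t) * y) := by
  have h1 : (ZMod.castHom hd (ZMod d) t) * y = ((t.val * y.val : ℕ) : ZMod d) := by
    push_cast
    rw [ZMod.natCast_zmod_val]
    congr 1
    conv_lhs => rw [← ZMod.natCast_zmod_val t]
    simp
  rw [h1, emb_natCast hd]
  unfold emb
  conv_lhs => rw [← ZMod.natCast_zmod_val t]
  push_cast
  ring

/-- the reduction `ZMod d → ZMod e`, `d = p e` -/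
lemma emb_castHom {d m e p : ℕ} [NeZero m] [NeZero d] [NeZero e] (hd : d ∣ m) (he : e * p = d)
    (y : ZMod d) :
    emb e m (ZMod.castHom (Dvd.intro p he) (ZMod e) y) = (p : ZMod m) * emb d m y := by
  have hem : e ∣ m := (Dvd.intro p he).trans hd
  have h1 : ZMod.castHom (Dvd.intro p he) (ZMod e) y = ((y.val : ℕ) : ZMod e) := by
    conv_lhs => rw [← ZMod.natCast_zmod_val y]
    simp
  rw [h1, emb_natCast hem]
  unfold emb
  obtain ⟨k, rfl⟩ := hd
  subst he
  have he0 : 0 < e := Nat.pos_of_ne_zero (NeZero.ne e)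
  have hep0 : 0 < e * p := Nat.pos_of_ne_zero (NeZero.ne _)
  rw [Nat.mul_div_cancel_left _ hep0, mul_assoc, Nat.mul_div_cancel_left _ he0]
  push_cast
  ring

lemma nsmul_emb_eq_zero {d m : ℕ} [NeZero m] (hd : d ∣ m) (k : ℕ) (z : (ZMod d)ˣ) :
    k • emb d m (z : ZMod d) = 0 ↔ d ∣ k := by
  have hm : 0 < m := Nat.pos_of_ne_zero (NeZero.ne m)
  have hd0 : 0 < d := Nat.pos_of_dvd_of_pos hd hm
  have : NeZero d := ⟨hd0.ne'⟩
  have h1 : k • emb d m (z : ZMod d) = emb d m ((k : ZMod d) * z) := by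
    rw [nsmul_eq_mul, mul_emb hd]
    simp
  rw [h1]
  constructor
  · intro h
    have h2 : (k : ZMod d) * z = 0 := emb_injective hd (h.trans emb_zero.symm)
    rw [Units.mul_left_eq_zero] at h2
    exact (ZMod.natCast_eq_zero_iff k d).1 h2
  · intro h
    rw [(ZMod.natCast_eq_zero_iff k d).2 h, zero_mul, emb_zero]

lemma addOrderOf_emb {d m : ℕ} [NeZero m] (hd : d ∣ m) (z : (ZMod d)ˣ) :
    addOrderOf (emb d m (z : ZMod d)) = d := by
  apply Nat.dvd_antisymm
  · exact addOrderOf_dvd_iff_nsmul_eq_zero.2 ((nsmul_emb_eq_zero hd d z).2 dvd_rfl)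
  · exact (nsmul_emb_eq_zero hd _ z).1 (addOrderOf_nsmul_eq_zero _)

lemma addOrderOf_dvd' {m : ℕ} [NeZero m] (x : ZMod m) : addOrderOf x ∣ m := by
  rw [addOrderOf_dvd_iff_nsmul_eq_zero]; simp

/-- every element of order `d` comes from a unit modulo `d` -/
lemma exists_emb {d m : ℕ} [NeZero m] (x : ZMod m) (hx : addOrderOf x = d) :
    ∃ z : (ZMod d)ˣ, emb d m (z : ZMod d) = x := by
  have hd : d ∣ m := hx ▸ addOrderOf_dvd' x
  have hm : 0 < m := Nat.pos_of_ne_zero (NeZero.ne m)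
  have hd0 : 0 < d := Nat.pos_of_dvd_of_pos hd hm
  have : NeZero d := ⟨hd0.ne'⟩
  obtain ⟨e, rfl⟩ := hd
  have he0 : 0 < e := Nat.pos_of_ne_zero (by rintro rfl; simp at hm)
  have h1 : d • x = 0 := by
    have h0 := addOrderOf_nsmul_eq_zero x
    rwa [hx] at h0
  have h2 : e ∣ x.val := by
    rw [nsmul_eq_mul] at h1
    have h3 : ((d * x.val : ℕ) : ZMod (d * e)) = 0 := by
      push_cast
      rw [ZMod.natCast_zmod_val]; exact h1
    rw [ZMod.natCast_eq_zero_iff] at h3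
    exact Nat.dvd_of_mul_dvd_mul_left hd0 h3
  obtain ⟨y, hy⟩ := h2
  have h3 : emb d (d * e) (y : ZMod d) = x := by
    rw [emb_natCast (Dvd.intro e rfl), Nat.mul_div_cancel_left _ hd0, Nat.mul_comm y e, ← hy,
      ZMod.natCast_zmod_val]
  have hcop : Nat.Coprime y d := by
    by_contra hc
    set g := Nat.gcd y d with hg
    have hg1 : 1 < g := by
      rcases Nat.lt_trichotomy g 1 with h | h | h
      · have : g = 0 := by omega
        rw [hg, Nat.gcd_eq_zero_iff] at this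
        omega
      · exact absurd h hc
      · exact h
    obtain ⟨a, ha⟩ := Nat.gcd_dvd_left y d
    obtain ⟨b, hb⟩ := Nat.gcd_dvd_right y d
    rw [← hg] at ha hb
    have hb0 : 0 < b := Nat.pos_of_ne_zero (by rintro rfl; omega)
    have h4 : b • x = 0 := by
      rw [← h3, emb_natCast (Dvd.intro e rfl), Nat.mul_div_cancel_left _ hd0, nsmul_eq_mul,
        ← Nat.cast_mul, ZMod.natCast_eq_zero_iff]
      refine ⟨a, ?_⟩
      conv_lhs => rw [ha]
      conv_rhs => rw [hb]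
      ring
    have h5 := addOrderOf_dvd_iff_nsmul_eq_zero.2 h4
    rw [hx] at h5
    have h6 := Nat.le_of_dvd hb0 h5
    have h7 : b < d := by
      rw [hb]; nlinarith
    omega
  exact ⟨ZMod.unitOfCoprime y hcop, by rw [ZMod.coe_unitOfCoprime]; exact h3⟩

/-! ### the function `ext` -/

section ext
variable {d m : ℕ} [NeZero d]

lemma ext_emb [NeZero m] (hd : d ∣ m) (n : (ZMod d)ˣ → ℤ) (z : (ZMod d)ˣ) :
    ext d m n (emb d m (z : ZMod d)) = n z := by
  unfold ext
  rw [Finset.sum_eq_single z]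
  · simp
  · intro w _ hw
    rw [if_neg]
    intro h
    exact hw (Units.ext (emb_injective hd h))
  · intro h; exact absurd (Finset.mem_univ _) h

lemma ext_of_order_ne [NeZero m] (hd : d ∣ m) (n : (ZMod d)ˣ → ℤ) (x : ZMod m)
    (hx : addOrderOf x ≠ d) : ext d m n x = 0 := by
  unfold ext
  apply Finset.sum_eq_zero
  intro z _
  rw [if_neg]
  rintro rfl
  exact hx (addOrderOf_emb hd z)

lemma ext_sub (n n' : (ZMod d)ˣ → ℤ) (x : ZMod m) :
    ext d m (fun z => n z - n' z) x = ext d m n x - ext d m n' x := by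
  unfold ext
  rw [← Finset.sum_sub_distrib]
  apply Finset.sum_congr rfl
  intro z _
  split_ifs <;> simp

lemma anti_ext (hd : d ∣ m) (n : (ZMod d)ˣ → ℤ) (x : ZMod m) :
    anti (ext d m n) x = ext d m (fun z => n z - n (-z)) x := by
  rw [ext_sub]
  unfold anti
  congr 1
  unfold ext
  rw [← Equiv.sum_comp (Equiv.neg (ZMod d)ˣ)]
  apply Finset.sum_congr rfl
  intro z _
  rw [Equiv.neg_apply, Units.val_neg, emb_neg hd]
  simp [neg_eq_iff_eq_neg]

/-- sums against an extension -/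
lemma sum_ext_smul [NeZero m] {A : Type*} [AddCommGroup A] (n : (ZMod d)ˣ → ℤ) (φ : ZMod m → A) :
    ∑ x, ext d m n x • φ x = ∑ z : (ZMod d)ˣ, n z • φ (emb d m (z : ZMod d)) := by
  unfold ext
  simp_rw [Finset.sum_smul]
  rw [Finset.sum_comm]
  apply Finset.sum_congr rfl
  intro z _
  rw [Finset.sum_eq_single (emb d m (z : ZMod d))]
  · simp
  · intro x _ hx
    rw [if_neg (Ne.symm hx), zero_smul]
  · intro h; exact absurd (Finset.mem_univ _) h

lemma sum_ext_abs [NeZero m] (hd : d ∣ m) (n : (ZMod d)ˣ → ℤ) :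
    ∑ x, |ext d m n x| = ∑ z : (ZMod d)ˣ, |n z| := by
  classical
  have h1 : ∑ x, |ext d m n x| = ∑ x ∈ (univ.image fun z : (ZMod d)ˣ => emb d m (z : ZMod d)),
      |ext d m n x| := by
    symm
    apply Finset.sum_subset (Finset.subset_univ _)
    intro x _ hx
    rw [ext_of_order_ne hd n x, abs_zero]
    intro h
    obtain ⟨z, hz⟩ := exists_emb x h
    exact hx (Finset.mem_image.2 ⟨z, Finset.mem_univ _, hz⟩)
  rw [h1, Finset.sum_image]
  · exact Finset.sum_congr rfl fun z _ => by rw [ext_emb hd]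
  · intro z _ w _ h
    exact Units.ext (emb_injective hd h)

end ext

end Pool.Agent.helper76.LP
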