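import Pool.Agent.helper10.FQ.D2
import Pool.Agent.helper10.FQ.NH
import Pool.Agent.helper6.FQ.CV
import Pool.Agent.helper6.FQ.XA
import Pool.Agent.helper6.FQ.XB
import Pool.Agent.helper97.FQ.S0
import Pool.Agent.helper58.FQ.D3
import Pool.Agent.helper58.FQ.PU
import Pool.Agent.helper6.FQ.SF

/-! # Project FQ: assembly -/

namespace Pool.Agent.helper76.LP

open Finset

/-- all pairs of elements of `Λ` are good -/
def GoodPairs (m : ℕ) : Prop :=
  ∀ x y, Lam m x → Lam m y → x < y → x * y ∈ ({12, 15, 20, 21, 28, 33, 39} : Finset ℕ)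

lemma ndec_of_dec (D : ℕ) [NeZero D] (f : (ZMod D)ˣ → ℤ) (h : Dec D f) : NDec D f := by
  obtain ⟨N, h1, h2, h3, -⟩ := h
  exact ⟨N, h1, h2, h3⟩

/-- the element of `Λ` attached to a prime -/
def lp (p : ℕ) : ℕ := if p = 2 then 4 else p

lemma lam_lp (m D p : ℕ) (hD : D ∣ m) (hD4 : D % 4 ≠ 2) (hp : p ∈ D.primeFactors) :
    Lam m (lp p) := by
  have hpp := Nat.prime_of_mem_primeFactors hp
  have hpd := Nat.dvd_of_mem_primeFactors hp
  unfold lp
  by_cases h2 : p = 2
  · subst h2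
    have h4 : 4 ∣ D := by
      obtain ⟨k, hk⟩ := hpd
      omega
    rw [if_pos rfl]
    exact ⟨h4.trans hD, Or.inl rfl⟩
  · rw [if_neg h2]
    exact ⟨hpd.trans hD, Or.inr ⟨hpp, hpp.odd_of_ne_two h2⟩⟩

lemma lp_inj {p q : ℕ} (hp : p.Prime) (hq : q.Prime) (h : lp p = lp q) : p = q := by
  unfold lp at h
  have h4 : ¬ Nat.Prime 4 := by norm_num
  split_ifs at h with h1 h2 h2
  · exact h1.trans h2.symm
  · exact absurd (h ▸ hq) h4
  · exact absurd (h ▸ hp) h4
  · exact h

lemma pair_mem (m : ℕ) (hm : GoodPairs m) {x y : ℕ} (hx : Lam m x) (hy : Lam m y) (hxy : x ≠ y) :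
    x * y ∈ ({12, 15, 20, 21, 28, 33, 39} : Finset ℕ) := by
  rcases Nat.lt_or_gt_of_ne hxy with h | h
  · exact hm x y hx hy h
  · rw [mul_comm]; exact hm y x hy hx h

/-- at most three primes -/
lemma card_le_three (m D : ℕ) (hm : GoodPairs m) (hD : D ∣ m) (hD4 : D % 4 ≠ 2) :
    D.primeFactors.card ≤ 3 := by
  by_contra hc
  push Not at hc
  obtain ⟨s, hs, hcard⟩ := Finset.exists_subset_card_eq (show 4 ≤ D.primeFactors.card by omega)
  obtain ⟨p, q, r, t, hpq, hpr, hpt, hqr, hqt, hrt, rfl⟩ := Finset.card_eq_four.1 hcard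
  have hmem : ∀ z ∈ ({p, q, r, t} : Finset ℕ), Lam m (lp z) ∧ z.Prime := fun z hz =>
    ⟨lam_lp m D z hD hD4 (hs hz), Nat.prime_of_mem_primeFactors (hs hz)⟩
  have hp := hmem p (by simp)
  have hq := hmem q (by simp)
  have hr := hmem r (by simp)
  have ht := hmem t (by simp)
  have hne : ∀ {a b : ℕ}, a.Prime → b.Prime → a ≠ b → lp a ≠ lp b :=
    fun ha hb hab h => hab (lp_inj ha hb h)
  have h1 := pair_mem m hm hp.1 hq.1 (hne hp.2 hq.2 hpq)
  have h2 := pair_mem m hm hp.1 hr.1 (hne hp.2 hr.2 hpr)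
  have h3 := pair_mem m hm hp.1 ht.1 (hne hp.2 ht.2 hpt)
  have h4 := pair_mem m hm hq.1 hr.1 (hne hq.2 hr.2 hqr)
  have h5 := pair_mem m hm hq.1 ht.1 (hne hq.2 ht.2 hqt)
  have h6 := pair_mem m hm hr.1 ht.1 (hne hr.2 ht.2 hrt)
  have hge : ∀ z, z.Prime → 3 ≤ lp z := by
    intro z hz
    unfold lp
    have := hz.two_le
    split_ifs with h
    · norm_num
    · omega
  have hle : ∀ {x y : ℕ}, 3 ≤ x → x * y ∈ ({12, 15, 20, 21, 28, 33, 39} : Finset ℕ) → y ≤ 13 := by
    intro x y hx hxy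
    simp only [Finset.mem_insert, Finset.mem_singleton] at hxy
    by_contra hy
    push Not at hy
    have : 3 * 14 ≤ x * y := Nat.mul_le_mul hx hy
    omega
  have b1 := hle (hge q hq.2) (by rw [mul_comm]; exact h1)
  have b2 := hle (hge p hp.2) h1
  have b3 := hle (hge p hp.2) h2
  have b4 := hle (hge p hp.2) h3
  have g1 := hge p hp.2
  have g2 := hge q hq.2
  have g3 := hge r hr.2
  have g4 := hge t ht.2
  have hlem : ∀ a ∈ Finset.Icc 3 13, ∀ b ∈ Finset.Icc 3 13,
      a * b ∈ ({12, 15, 20, 21, 28, 33, 39} : Finset ℕ) → ∀ c ∈ Finset.Icc 3 13,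
      a * c ∈ ({12, 15, 20, 21, 28, 33, 39} : Finset ℕ) →
      b * c ∈ ({12, 15, 20, 21, 28, 33, 39} : Finset ℕ) → ∀ d ∈ Finset.Icc 3 13,
      a * d ∈ ({12, 15, 20, 21, 28, 33, 39} : Finset ℕ) →
      b * d ∈ ({12, 15, 20, 21, 28, 33, 39} : Finset ℕ) →
      c * d ∈ ({12, 15, 20, 21, 28, 33, 39} : Finset ℕ) → False := by decide +kernel
  exact hlem _ (Finset.mem_Icc.2 ⟨g1, b1⟩) _ (Finset.mem_Icc.2 ⟨g2, b2⟩) h1 _
    (Finset.mem_Icc.2 ⟨g3, b3⟩) h2 h4 _ (Finset.mem_Icc.2 ⟨g4, b4⟩) h3 h5 h6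

/-- two primes: the exceptional class removes the obstruction -/
def Fix (D : ℕ) [NeZero D] : Prop :=
  ∃ e : ZMod D → ℤ, TateF (anti e) ∧ cls D e ∈ E1 ∧
    ∀ f g : (ZMod D)ˣ → ℤ, (∀ x, f (-x) = - f x) →
      (∀ L : List ℕ, L.Nodup → L.toFinset = D.primeFactors → MDv (Gam D) L f) →
      (g = fun z => f z - anti e (z : ZMod D)) →
      (∀ x, g (-x) = - g x) →
      (∀ L : List ℕ, L.Nodup → L.toFinset = D.primeFactors → MDv (Gam D) L g) →
      NDec D f ∨ NDec D g

lemma fix_of_exo (D p q : ℕ) [NeZero D] (hpq : p ≠ q) (hD : D.primeFactors = {p, q})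
    (hc : D.totient = Nat.card (Gam D p) * Nat.card (Gam D q)) (ν : (ZMod D)ˣ)
    (h1 : ν ∈ Gam D p) (h2 : -ν ∈ Gam D q) (hν : ν * ν = 1) (hE : Exo D (ν : ZMod D)) :
    Fix D := by
  obtain ⟨e, he1, he2, he3⟩ := hE
  refine ⟨e, he1, he3, ?_⟩
  intro f g hf hfL hg hgodd hgL
  have hL : [p, q].toFinset = D.primeFactors := by rw [hD]; simp
  have hn : [p, q].Nodup := by simp [hpq]
  rcases Int.even_or_odd (f 1 + f ν) with h | h
  · left
    exact ndec_two D p q hpq hD hc ν h1 h2 hν f hf (hfL _ hn hL) h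
  · right
    refine ndec_two D p q hpq hD hc ν h1 h2 hν g hgodd (hgL _ hn hL) ?_
    rw [hg]
    have : f 1 - anti e ((1 : (ZMod D)ˣ) : ZMod D) + (f ν - anti e (ν : ZMod D)) =
        (f 1 + f ν) - (anti e 1 + anti e (ν : ZMod D)) := by
      rw [Units.val_one]; ring
    simp only
    rw [this]
    exact h.sub_odd he2

open Pool.Agent.helper34.DH in
/-- the result of one stage -/
def Out (m : ℕ) [NeZero m] (D : ℕ) (c : ZMod m → ℤ) : Prop :=
  ∃ c' : ZMod m → ℤ, TateF (anti c') ∧ (∀ x, anti c' x ≠ 0 → addOrderOf x < D) ∧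
    cls m c - cls m c' ∈ E1

open Pool.Agent.helper34.DH in
lemma hh_mem : hh ∈ E1 := AddSubgroup.subset_closure (Or.inr rfl)

lemma out_of_ndec (m : ℕ) [NeZero m] (D : ℕ) [NeZero D] (hD : D ∣ m) (c : ZMod m → ℤ)
    (hmax : ∀ x, anti c x ≠ 0 → addOrderOf x ≤ D) (hT : TateF (anti c))
    (hdec : NDec D (fun z => anti c (emb D m (z : ZMod D)))) : Out m D c := by
  obtain ⟨c', h1, h2, j, hj⟩ := step0 m D hD c hmax hT hdec
  refine ⟨c', h1, h2, ?_⟩
  rw [hj]
  have : cls m c - (cls m c + j • Pool.Agent.helper34.DH.hh) =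
      -(j • Pool.Agent.helper34.DH.hh) := by abel
  rw [this]
  exact E1.neg_mem (E1.zsmul_mem hh_mem j)

lemma cls_sub (m : ℕ) [NeZero m] (c e : ZMod m → ℤ) :
    cls m (fun x => c x - e x) = cls m c - cls m e := by
  unfold cls
  rw [← Finset.sum_sub_distrib]
  exact Finset.sum_congr rfl fun x _ => sub_smul _ _ _

lemma anti_sub {m : ℕ} (c e : ZMod m → ℤ) (x : ZMod m) :
    anti (fun x => c x - e x) x = anti c x - anti e x := by
  unfold anti; ring

lemma out_of_fix (m : ℕ) [NeZero m] (D : ℕ) [NeZero D] (hD : D ∣ m) (c : ZMod m → ℤ)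
    (hmax : ∀ x, anti c x ≠ 0 → addOrderOf x ≤ D) (hT : TateF (anti c)) (hF : Fix D) :
    Out m D c := by
  obtain ⟨e, he1, he2, he3⟩ := hF
  set c2 : ZMod m → ℤ := fun x => c x - push D m e x with hc2
  have ha : ∀ x, anti c2 x = anti c x - push D m (anti e) x := by
    intro x
    rw [hc2, anti_sub, anti_push D m hD]
  have hT2 : TateF (anti c2) := by
    intro t
    have h1 := hT t
    have h2 := tateF_push D m hD (anti e) he1 t
    simp_rw [ha, sub_mul]
    rw [Finset.sum_sub_distrib, h1, h2, sub_zero]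
  have hD0 : 0 < D := Nat.pos_of_ne_zero (NeZero.ne D)
  have hmax2 : ∀ x, anti c2 x ≠ 0 → addOrderOf x ≤ D := by
    intro x hx
    by_cases h1 : push D m (anti e) x = 0
    · apply hmax
      rw [ha, h1, sub_zero] at hx
      exact hx
    · exact Nat.le_of_dvd hD0 (push_order D m hD _ x h1)
  have hodd : ∀ c : ZMod m → ℤ, ∀ x : (ZMod D)ˣ, anti c (emb D m ((-x : (ZMod D)ˣ) : ZMod D)) =
      - anti c (emb D m (x : ZMod D)) := by
    intro c x
    rw [Units.val_neg, emb_neg hD, anti_odd]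
  have h := he3 (fun z => anti c (emb D m (z : ZMod D)))
    (fun z => anti c2 (emb D m (z : ZMod D))) (hodd c)
    (fun L _ hL => mdiff_anti m D hD c hT hmax L hL)
    (by funext z; rw [ha, push_emb D m hD]) (hodd c2)
    (fun L _ hL => mdiff_anti m D hD c2 hT2 hmax2 L hL)
  rcases h with h | h
  · exact out_of_ndec m D hD c hmax hT h
  · obtain ⟨c', h1, h2, h3⟩ := out_of_ndec m D hD c2 hmax2 hT2 h
    refine ⟨c', h1, h2, ?_⟩
    have h4 : cls m c2 = cls m c - cls D e := by
      rw [hc2, cls_sub, cls_push D m hD]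
    have h5 : cls m c - cls m c' = (cls m c2 - cls m c') + cls D e := by
      rw [h4]; abel
    rw [h5]
    exact E1.add_mem h3 he2

lemma fix12 : Fix 12 := by
  have hp : Nat.Prime 2 := by norm_num
  have hq : Nat.Prime 3 := by norm_num
  refine fix_of_exo 12 2 3 (by norm_num) (by decide +kernel) ?_
    ⟨7, 7, by decide, by decide⟩ ?_ ?_ (by decide) exo12
  · rw [card_Gam 12 2 hp (by norm_num), card_Gam 12 3 hq (by norm_num)]
    norm_num
    try decide +kernel
  · unfold Gam
    rw [dif_pos (by norm_num : 2 ∣ 12), MonoidHom.mem_ker]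
    decide
  · unfold Gam
    rw [dif_pos (by norm_num : 3 ∣ 12), MonoidHom.mem_ker]
    decide

lemma fix15 : Fix 15 := by
  have hp : Nat.Prime 3 := by norm_num
  have hq : Nat.Prime 5 := by norm_num
  refine fix_of_exo 15 3 5 (by norm_num) (by decide +kernel) ?_
    ⟨11, 11, by decide, by decide⟩ ?_ ?_ (by decide) exo15
  · rw [card_Gam 15 3 hp (by norm_num), card_Gam 15 5 hq (by norm_num)]
    norm_num
    try decide +kernel
  · unfold Gam
    rw [dif_pos (by norm_num : 3 ∣ 15), MonoidHom.mem_ker]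
    decide
  · unfold Gam
    rw [dif_pos (by norm_num : 5 ∣ 15), MonoidHom.mem_ker]
    decide

lemma fix20 : Fix 20 := by
  have hp : Nat.Prime 2 := by norm_num
  have hq : Nat.Prime 5 := by norm_num
  refine fix_of_exo 20 2 5 (by norm_num) (by decide +kernel) ?_
    ⟨11, 11, by decide, by decide⟩ ?_ ?_ (by decide) exo20
  · rw [card_Gam 20 2 hp (by norm_num), card_Gam 20 5 hq (by norm_num)]
    norm_num
    try decide +kernel
  · unfold Gam
    rw [dif_pos (by norm_num : 2 ∣ 20), MonoidHom.mem_ker]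
    decide
  · unfold Gam
    rw [dif_pos (by norm_num : 5 ∣ 20), MonoidHom.mem_ker]
    decide

lemma fix21 : Fix 21 := by
  have hp : Nat.Prime 3 := by norm_num
  have hq : Nat.Prime 7 := by norm_num
  refine fix_of_exo 21 3 7 (by norm_num) (by decide +kernel) ?_
    ⟨8, 8, by decide, by decide⟩ ?_ ?_ (by decide) exo21
  · rw [card_Gam 21 3 hp (by norm_num), card_Gam 21 7 hq (by norm_num)]
    norm_num
    try decide +kernel
  · unfold Gam
    rw [dif_pos (by norm_num : 3 ∣ 21), MonoidHom.mem_ker]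
    decide
  · unfold Gam
    rw [dif_pos (by norm_num : 7 ∣ 21), MonoidHom.mem_ker]
    decide

lemma fix28 : Fix 28 := by
  have hp : Nat.Prime 2 := by norm_num
  have hq : Nat.Prime 7 := by norm_num
  refine fix_of_exo 28 2 7 (by norm_num) (by decide +kernel) ?_
    ⟨15, 15, by decide, by decide⟩ ?_ ?_ (by decide) exo28
  · rw [card_Gam 28 2 hp (by norm_num), card_Gam 28 7 hq (by norm_num)]
    norm_num
    try decide +kernel
  · unfold Gam
    rw [dif_pos (by norm_num : 2 ∣ 28), MonoidHom.mem_ker]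
    decide
  · unfold Gam
    rw [dif_pos (by norm_num : 7 ∣ 28), MonoidHom.mem_ker]
    decide

lemma fix33 : Fix 33 := by
  have hp : Nat.Prime 3 := by norm_num
  have hq : Nat.Prime 11 := by norm_num
  refine fix_of_exo 33 3 11 (by norm_num) (by decide +kernel) ?_
    ⟨23, 23, by decide, by decide⟩ ?_ ?_ (by decide) exo33
  · rw [card_Gam 33 3 hp (by norm_num), card_Gam 33 11 hq (by norm_num)]
    norm_num
    try decide +kernel
  · unfold Gam
    rw [dif_pos (by norm_num : 3 ∣ 33), MonoidHom.mem_ker]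
    decide
  · unfold Gam
    rw [dif_pos (by norm_num : 11 ∣ 33), MonoidHom.mem_ker]
    decide

lemma fix39 : Fix 39 := by
  have hp : Nat.Prime 3 := by norm_num
  have hq : Nat.Prime 13 := by norm_num
  refine fix_of_exo 39 3 13 (by norm_num) (by decide +kernel) ?_
    ⟨14, 14, by decide, by decide⟩ ?_ ?_ (by decide) exo39
  · rw [card_Gam 39 3 hp (by norm_num), card_Gam 39 13 hq (by norm_num)]
    norm_num
    try decide +kernel
  · unfold Gam
    rw [dif_pos (by norm_num : 3 ∣ 39), MonoidHom.mem_ker]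
    decide
  · unfold Gam
    rw [dif_pos (by norm_num : 13 ∣ 39), MonoidHom.mem_ker]
    decide

lemma fix_of_mem (D : ℕ) [NeZero D] (h : D ∈ ({12, 15, 20, 21, 28, 33, 39} : Finset ℕ)) :
    Fix D := by
  simp only [Finset.mem_insert, Finset.mem_singleton] at h
  rcases h with h | h | h | h | h | h | h <;> subst h
  · exact fix12
  · exact fix15
  · exact fix20
  · exact fix21
  · exact fix28
  · exact fix33
  · exact fix39

/-- one stage of the induction -/
theorem stage (m : ℕ) [NeZero m] (hm : GoodPairs m) (D : ℕ) [NeZero D] (hD : D ∣ m)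
    (c : ZMod m → ℤ) (hmax : ∀ x, anti c x ≠ 0 → addOrderOf x ≤ D) (hT : TateF (anti c)) :
    Out m D c := by
  have hodd : ∀ x : (ZMod D)ˣ, anti c (emb D m ((-x : (ZMod D)ˣ) : ZMod D)) =
      - anti c (emb D m (x : ZMod D)) := by
    intro x
    rw [Units.val_neg, emb_neg hD, anti_odd]
  by_cases hD4 : D % 4 = 2
  · exact out_of_ndec m D hD c hmax hT (ndec_of_dec D _ (dec_two D hD4 _ hodd))
  have hmd : ∀ L : List ℕ, L.Nodup → L.toFinset = D.primeFactors →
      MDv (Gam D) L (fun z => anti c (emb D m (z : ZMod D))) :=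
    fun L _ hL => mdiff_anti m D hD c hT hmax L hL
  set L := D.primeFactors.toList with hLdef
  have hLn : L.Nodup := Finset.nodup_toList _
  have hLt : L.toFinset = D.primeFactors := Finset.toList_toFinset _
  by_cases h1 : (-1 : (ZMod D)ˣ) ∈ Pl (Gam D) L
  · have hs := sqf_of_neg_one D L hLt h1
    have hcard := card_le_three m D hm hD hD4
    rcases Nat.lt_or_ge D.primeFactors.card 2 with h2 | h2
    · exact out_of_ndec m D hD c hmax hT
        (ndec_one D (by omega) L hLn hLt h1 _ hodd (hmd L hLn hLt))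
    · rcases Nat.lt_or_ge D.primeFactors.card 3 with h3 | h3
      · -- two primes
        obtain ⟨p, q, hpq, hpqD⟩ := Finset.card_eq_two.1 (show D.primeFactors.card = 2 by omega)
        have hprod := (eq_prod_lam D hD4 hs).1
        have hp : p ∈ D.primeFactors := by rw [hpqD]; simp
        have hq : q ∈ D.primeFactors := by rw [hpqD]; simp
        have hDpq : D = lp p * lp q := by
          rw [hpqD, Finset.prod_pair hpq] at hprod
          exact hprod
        have hmem := pair_mem m hm (lam_lp m D p hD hD4 hp) (lam_lp m D q hD hD4 hq)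
          (fun h => hpq (lp_inj (Nat.prime_of_mem_primeFactors hp)
            (Nat.prime_of_mem_primeFactors hq) h))
        rw [← hDpq] at hmem
        exact out_of_fix m D hD c hmax hT (fix_of_mem D hmem)
      · exact out_of_ndec m D hD c hmax hT
          (ndec_three D hD4 (by omega) hs _ hodd hmd)
  · exact out_of_ndec m D hD c hmax hT (ndec_half D L hLn hLt h1 _ hodd (hmd L hLn hLt))

/-- the main induction -/
theorem main_induction2 (m : ℕ) [NeZero m] (hm : GoodPairs m) :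
    ∀ (D : ℕ) (c : ZMod m → ℤ), TateF (anti c) → (∀ x, anti c x ≠ 0 → addOrderOf x ≤ D) →
      cls m c ∈ E1 := by
  intro D
  induction D with
  | zero =>
    intro c _ h
    obtain ⟨j, hj⟩ := cls_even m c (by
      intro x
      by_contra hx
      have := h x hx
      have h2 := addOrderOf_pos x
      omega)
    rw [hj]
    exact E1.zsmul_mem hh_mem j
  | succ D ih =>
    intro c hT h
    by_cases hD : (D + 1) ∣ m
    · have : NeZero (D + 1) := ⟨Nat.succ_ne_zero D⟩
      obtain ⟨c', h1, h2, h3⟩ := stage m hm (D + 1) hD c h hT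
      have h4 := ih c' h1 (fun x hx => Nat.lt_succ_iff.1 (h2 x hx))
      have h5 := E1.add_mem h3 h4
      rwa [sub_add_cancel] at h5
    · apply ih c hT
      intro x hx
      have h1 := h x hx
      have h2 : addOrderOf x ≠ D + 1 := fun h3 => hD (h3 ▸ addOrderOf_dvd' x)
      omega

open Pool.Agent.helper34.DH Pool.Agent.helper76.FV in
/-- the theorem -/
theorem tate_few_primes (m : ℕ) (hm : 0 < m) (hg : GoodPairs m) (d : ℕ)
    {s : ℕ} (π : Fin (2 * d) → Fin s) (a : Fin (2 * d) → ZMod m) :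
    IsTateChar m π a ↔ (∀ i, a i ≠ 0) ∧ BlockZero π a ∧ SurfEquiv (pts a) 0 := by
  have : NeZero m := ⟨hm.ne'⟩
  rw [isTateChar_iff m hm]
  constructor
  · rintro ⟨hb, hT⟩
    refine ⟨hT.1, hb, surf_of_cls m d a hT.1 ?_⟩
    exact main_induction2 m hg m _ (tateF_anti m a hT)
      (fun x _ => Nat.le_of_dvd hm (addOrderOf_dvd' x))
  · rintro ⟨h0, hb, hs⟩
    exact ⟨hb, tateM_of_surfEquiv m hm _ a h0 hs⟩

end Pool.Agent.helper76.LP
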