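import Pool.Agent.helper13.QR.DC
import Pool.Agent.helper13.QR.ST
import Pool.Agent.helper30.QR.XA
import Pool.Agent.helper30.QR.XB
import Pool.Agent.helper52.QR.SP
import Pool.Agent.helper54.QR.GB
import Pool.Agent.helper58.QR.GA
import Pool.Agent.helper58.QR.MA
import Pool.Agent.helper91.QR.MC
import Pool.Agent.helper92.QR.QD

/-! # Project QR: assembly -/

namespace Pool.Agent.helper76.LP

open Finset

theorem mdiff (m : ℕ) [NeZero m] (F : ZMod m → ℤ) (hodd : ∀ x, F (-x) = - F x)
    (hT : TateF F) (d : ℕ) [NeZero d] (hd : d ∣ m)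
    (hmax : ∀ x, d ∣ addOrderOf x → addOrderOf x ≠ d → F x = 0) (L : List ℕ)
    (hL : ∀ p ∈ d.primeFactors, p ∈ L) :
    MDv (Gam d) L (fun z => F (emb d m (z : ZMod d))) := by
  apply mdv_of_fourier
  intro χ
  by_cases h : χ.IsPrimitive
  · left; exact fourier_zero m F hodd hT d hd hmax χ h
  · right
    obtain ⟨p, hp, hu⟩ := imprim d χ h
    exact ⟨p, hL p hp, hu⟩

/-- the odd primes dividing `m`, and `4` if `4 ∣ m` -/
def Lam (m x : ℕ) : Prop := x ∣ m ∧ (x = 4 ∨ (x.Prime ∧ Odd x))

lemma card_supp_le {α : Type*} [Fintype α] (f : α → ℤ) :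
    ((univ.filter (fun x => f x ≠ 0)).card : ℤ) ≤ ∑ x, |f x| := by
  rw [Finset.card_filter]
  push_cast
  apply Finset.sum_le_sum
  intro x _
  split_ifs with h
  · exact Int.one_le_abs h
  · exact abs_nonneg _

lemma Sl_le {G ι : Type*} [CommGroup G] [Fintype G] (Γ : ι → Subgroup G) (L : List ι)
    (f : G → ℤ) (a : G) : (Sl Γ L f a : ℤ) ≤ ∑ x, |f x| := by
  classical
  refine le_trans ?_ (card_supp_le f)
  unfold Sl
  rw [Nat.card_eq_fintype_card, Fintype.card_subtype]
  exact_mod_cast Finset.card_le_card fun x hx => by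
    rw [Finset.mem_filter] at hx ⊢
    exact ⟨hx.1, hx.2.2⟩

/-- the direction `p` is at least as large as `φ` of the corresponding element of `Λ` -/
lemma exists_lam (m D p : ℕ) [NeZero D] (hD : D ∣ m) (hD4 : D % 4 ≠ 2)
    (hp : p ∈ D.primeFactors) : ∃ x, Lam m x ∧ x.totient ≤ Nat.card (Gam D p) ∧
      (x = if p = 2 then 4 else p) := by
  have hpp := Nat.prime_of_mem_primeFactors hp
  have hpd := Nat.dvd_of_mem_primeFactors hp
  have hc := card_Gam D p hpp hpd
  by_cases h2 : p = 2
  · subst h2
    have h4 : 4 ∣ D := by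
      obtain ⟨k, hk⟩ := hpd
      omega
    refine ⟨4, ⟨h4.trans hD, Or.inl rfl⟩, ?_, by simp⟩
    rw [hc, if_pos (by simpa using h4)]
    decide
  · refine ⟨p, ⟨hpd.trans hD, Or.inr ⟨hpp, hpp.odd_of_ne_two h2⟩⟩, ?_, by simp [h2]⟩
    rw [hc, Nat.totient_prime hpp]
    split_ifs <;> omega

/-- decompositions exist in the quadratic range -/
theorem dec_gen (m : ℕ) (B : ℕ) (D : ℕ) [NeZero D] (hD : D ∣ m)
    (H : ∀ x y, Lam m x → Lam m y → x ≠ y → (Odd D → Odd x ∧ Odd y) →
      2 * B < x.totient * y.totient)
    (f : (ZMod D)ˣ → ℤ) (hodd : ∀ x, f (-x) = - f x)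
    (hf : ∀ L : List ℕ, L.Nodup → L.toFinset = D.primeFactors → MDv (Gam D) L f)
    (hB : ∑ x, |f x| ≤ B) : Dec D f := by
  by_cases hD4 : D % 4 = 2
  · exact dec_two D hD4 f hodd
  · have hLt : D.primeFactors.toList.toFinset = D.primeFactors := Finset.toList_toFinset _
    refine dec_of_strDec D hD4 f hodd D.primeFactors.toList (Finset.nodup_toList _) hLt ?_
    refine structure_thm _ _ (Finset.nodup_toList _) ?_ f (hf _ (Finset.nodup_toList _) hLt) ?_
    · exact indep_Gam D _ (Finset.nodup_toList _) fun p hp => Finset.mem_toList.1 hp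
    · intro a p hp q hq hpq
      rw [Finset.mem_toList] at hp hq
      obtain ⟨x, hx, hxc, hxp⟩ := exists_lam m D p hD hD4 hp
      obtain ⟨y, hy, hyc, hyq⟩ := exists_lam m D q hD hD4 hq
      have hpp := Nat.prime_of_mem_primeFactors hp
      have hqp := Nat.prime_of_mem_primeFactors hq
      have hxy : x ≠ y := by
        rw [hxp, hyq]
        intro h
        have h4 : ¬ Nat.Prime 4 := by norm_num
        split_ifs at h with h1 h2 h2
        · exact hpq (h1.trans h2.symm)
        · exact h4 (h ▸ hqp)
        · exact h4 (h ▸ hpp)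
        · exact hpq h
      have hoddxy : Odd D → Odd x ∧ Odd y := by
        intro hDo
        have h2 : ∀ r, r ∈ D.primeFactors → r ≠ 2 := by
          rintro r hr rfl
          have := Nat.dvd_of_mem_primeFactors hr
          exact (Nat.not_even_iff_odd.2 hDo) (even_iff_two_dvd.2 this)
        rw [hxp, hyq, if_neg (h2 p hp), if_neg (h2 q hq)]
        exact ⟨hpp.odd_of_ne_two (h2 p hp), hqp.odd_of_ne_two (h2 q hq)⟩
      have h1 := H x y hx hy hxy hoddxy
      have h2 := Sl_le (Gam D) D.primeFactors.toList f a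
      have h3 : Sl (Gam D) D.primeFactors.toList f a ≤ B := by
        have := h2.trans hB
        exact_mod_cast this
      have h4 := Nat.mul_le_mul hxc hyc
      omega

open Pool.Agent.helper34.DH in
/-- the main induction -/
theorem main_induction (m : ℕ) [NeZero m] (B B4 : ℤ)
    (hdec : ∀ (D : ℕ) [NeZero D], D ∣ m → ∀ c : ZMod m → ℤ, TateF (anti c) →
      (∀ x, anti c x ≠ 0 → addOrderOf x ≤ D) → normw (anti c) ≤ B → norm4 (anti c) ≤ B4 →
      Dec D (fun z => anti c (emb D m (z : ZMod D)))) :
    ∀ (D : ℕ) (c : ZMod m → ℤ), TateF (anti c) → (∀ x, anti c x ≠ 0 → addOrderOf x ≤ D) →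
      normw (anti c) ≤ B → norm4 (anti c) ≤ B4 → ∃ j : ℤ, cls m c = j • hh := by
  intro D
  induction D with
  | zero =>
    intro c _ h _ _
    apply cls_even
    intro x
    by_contra hx
    have := h x hx
    have h2 := addOrderOf_pos x
    omega
  | succ D ih =>
    intro c hT h hB hB4
    by_cases hD : (D + 1) ∣ m
    · have : NeZero (D + 1) := ⟨Nat.succ_ne_zero D⟩
      obtain ⟨c', h1, h2, h3, h4, j, hj⟩ :=
        step m (D + 1) hD c h hT (hdec (D + 1) hD c hT h hB hB4)
      obtain ⟨i, hi⟩ := ih c' h1 (fun x hx => Nat.lt_succ_iff.1 (h2 x hx)) (h3.trans hB)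
        (h4.trans hB4)
      refine ⟨i - j, ?_⟩
      rw [sub_smul, ← hi, hj]; abel
    · apply ih c hT ?_ hB hB4
      intro x hx
      have h1 := h x hx
      have h2 : addOrderOf x ≠ D + 1 := fun h3 => hD (h3 ▸ addOrderOf_dvd' x)
      omega

lemma anti_odd {m : ℕ} (c : ZMod m → ℤ) (x : ZMod m) : anti c (-x) = - anti c x := by
  unfold anti; rw [neg_neg]; ring

/-- weights are positive: part of the norm -/
lemma sum_emb_le_normw (m : ℕ) [NeZero m] (D : ℕ) [NeZero D] (hD : D ∣ m) (F : ZMod m → ℤ) :
    wo D * ∑ z : (ZMod D)ˣ, |F (emb D m (z : ZMod D))| ≤ normw F := by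
  classical
  unfold normw
  have h1 : ∑ x ∈ (univ.image fun z : (ZMod D)ˣ => emb D m (z : ZMod D)),
      wo (addOrderOf x) * |F x| = wo D * ∑ z : (ZMod D)ˣ, |F (emb D m (z : ZMod D))| := by
    rw [Finset.sum_image (fun z _ w _ h => Units.ext (emb_injective hD h)), Finset.mul_sum]
    exact Finset.sum_congr rfl fun z _ => by rw [addOrderOf_emb hD]
  rw [← h1]
  apply Finset.sum_le_sum_of_subset_of_nonneg (Finset.subset_univ _)
  intro x _ _
  have : 0 ≤ wo (addOrderOf x) := by unfold wo; split_ifs <;> norm_num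
  positivity

lemma wo_pos (e : ℕ) : 1 ≤ wo e := by unfold wo; split_ifs <;> norm_num

lemma mdiff_anti (m : ℕ) [NeZero m] (D : ℕ) [NeZero D] (hD : D ∣ m) (c : ZMod m → ℤ)
    (hT : TateF (anti c)) (h : ∀ x, anti c x ≠ 0 → addOrderOf x ≤ D) (L : List ℕ)
    (hL : L.toFinset = D.primeFactors) :
    MDv (Gam D) L (fun z => anti c (emb D m (z : ZMod D))) := by
  refine mdiff m (anti c) (anti_odd c) hT D hD ?_ L ?_
  · intro x h1 h2
    by_contra h3
    exact h2 (Nat.le_antisymm (h x h3) (Nat.le_of_dvd (addOrderOf_pos x) h1))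
  · intro p hp
    rw [← hL] at hp
    exact List.mem_toFinset.1 hp

lemma sum_emb_le_norm4 (m : ℕ) [NeZero m] (D : ℕ) [NeZero D] (hD : D ∣ m) (h4 : 4 ∣ D)
    (F : ZMod m → ℤ) :
    ∑ z : (ZMod D)ˣ, |F (emb D m (z : ZMod D))| ≤ norm4 F := by
  classical
  unfold norm4
  have h1 : ∑ x ∈ (univ.image fun z : (ZMod D)ˣ => emb D m (z : ZMod D)),
      (if 4 ∣ addOrderOf x then |F x| else 0) = ∑ z : (ZMod D)ˣ, |F (emb D m (z : ZMod D))| := by
    rw [Finset.sum_image (fun z _ w _ h => Units.ext (emb_injective hD h))]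
    exact Finset.sum_congr rfl fun z _ => by rw [addOrderOf_emb hD, if_pos h4]
  rw [← h1]
  apply Finset.sum_le_sum_of_subset_of_nonneg (Finset.subset_univ _)
  intro x _ _
  split_ifs
  · exact abs_nonneg _
  · exact le_rfl

open Pool.Agent.helper34.DH in
/-- the theorem for functions, quadratic range -/
theorem cls_quadratic (m : ℕ) [NeZero m] (B B4 : ℕ)
    (H4 : ∀ x y, Lam m x → Lam m y → x ≠ y → 2 * B4 < x.totient * y.totient)
    (H : ∀ x y, Lam m x → Lam m y → x ≠ y → Odd x → Odd y → 2 * B < x.totient * y.totient)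
    (c : ZMod m → ℤ) (hT : TateF (anti c)) (hB : normw (anti c) ≤ B)
    (hB4 : norm4 (anti c) ≤ B4) :
    ∃ j : ℤ, cls m c = j • hh := by
  refine main_induction m B B4 ?_ m c hT ?_ hB hB4
  · intro D _ hD c hT h hB hB4
    have hodd : ∀ x : (ZMod D)ˣ, anti c (emb D m ((-x : (ZMod D)ˣ) : ZMod D)) =
        - anti c (emb D m (x : ZMod D)) := by
      intro x
      rw [Units.val_neg, emb_neg hD, anti_odd]
    by_cases h4 : 4 ∣ D
    · refine dec_gen m B4 D hD (fun x y hx hy hxy _ => H4 x y hx hy hxy) _ hodd
        (fun L _ hL => mdiff_anti m D hD c hT h L hL) ?_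
      exact (sum_emb_le_norm4 m D hD h4 (anti c)).trans hB4
    · by_cases h2 : D % 4 = 2
      · exact dec_two D h2 _ hodd
      · have hDo : Odd D := by
          rw [← Nat.not_even_iff_odd, even_iff_two_dvd]
          omega
        refine dec_gen m B D hD (fun x y hx hy hxy ho => H x y hx hy hxy (ho hDo).1 (ho hDo).2) _
          hodd (fun L _ hL => mdiff_anti m D hD c hT h L hL) ?_
        have h1 := sum_emb_le_normw m D hD (anti c)
        have h2 := wo_pos D
        have h3 : 0 ≤ ∑ z : (ZMod D)ˣ, |anti c (emb D m (z : ZMod D))| :=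
          Finset.sum_nonneg fun _ _ => abs_nonneg _
        nlinarith
  · intro x _
    exact Nat.le_of_dvd (Nat.pos_of_ne_zero (NeZero.ne m)) (addOrderOf_dvd' x)

open Pool.Agent.helper34.DH in
/-- the theorem for functions, degree prime to 6 and norm at most 12 -/
theorem cls_fourfold (m : ℕ) [NeZero m] (h6 : Nat.Coprime m 6)
    (c : ZMod m → ℤ) (hT : TateF (anti c)) (hB : normw (anti c) ≤ 12) :
    ∃ j : ℤ, cls m c = j • hh := by
  refine main_induction m 12 (norm4 (anti c)) ?_ m c hT ?_ hB le_rfl
  · intro D _ hD c hT h hB _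
    have hodd : ∀ x : (ZMod D)ˣ, anti c (emb D m ((-x : (ZMod D)ˣ) : ZMod D)) =
        - anti c (emb D m (x : ZMod D)) := by
      intro x
      rw [Units.val_neg, emb_neg hD, anti_odd]
    have hn : ∑ z : (ZMod D)ˣ, |anti c (emb D m (z : ZMod D))| ≤ 12 := by
      have h1 := sum_emb_le_normw m D hD (anti c)
      have h2 := wo_pos D
      have h3 : 0 ≤ ∑ z : (ZMod D)ˣ, |anti c (emb D m (z : ZMod D))| :=
        Finset.sum_nonneg fun _ _ => abs_nonneg _
      nlinarith
    by_cases h35 : D = 35
    · subst h35
      refine ex35 _ hodd (mdiff_anti m 35 hD c hT h [5, 7] ?_) hn ?_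
      · have : Nat.primeFactors 35 = {5, 7} := by
          rw [show (35 : ℕ) = 5 * 7 by norm_num, Nat.primeFactors_mul (by norm_num) (by norm_num),
            Nat.Prime.primeFactors (by norm_num), Nat.Prime.primeFactors (by norm_num)]
          rfl
        rw [this]; rfl
      · intro h12 t
        -- the support is contained in the elements of order 35
        have hs : ∀ x, addOrderOf x ≠ 35 → anti c x = 0 := by
          classical
          have h1 : ∑ x ∈ univ.filter (fun x : ZMod m => addOrderOf x ≠ 35),
              wo (addOrderOf x) * |anti c x| ≤ 0 := by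
            have h2 : ∑ x ∈ univ.filter (fun x : ZMod m => addOrderOf x = 35),
                wo (addOrderOf x) * |anti c x| = 12 := by
              rw [← h12]
              symm
              refine Finset.sum_bij (fun z _ => emb 35 m (z : ZMod 35)) ?_ ?_ ?_ ?_
              · intro z _
                rw [Finset.mem_filter]
                exact ⟨Finset.mem_univ _, addOrderOf_emb hD z⟩
              · intro z _ w _ h
                exact Units.ext (emb_injective hD h)
              · intro x hx
                rw [Finset.mem_filter] at hx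
                obtain ⟨z, hz⟩ := exists_emb x hx.2
                exact ⟨z, Finset.mem_univ _, hz⟩
              · intro z _
                rw [addOrderOf_emb hD]
                unfold wo
                norm_num
            have h3 := Finset.sum_filter_add_sum_filter_not (univ : Finset (ZMod m))
              (fun x => addOrderOf x = 35) (fun x => wo (addOrderOf x) * |anti c x|)
            unfold normw at hB
            have h4 : ∑ x ∈ univ.filter (fun x : ZMod m => ¬ addOrderOf x = 35),
              wo (addOrderOf x) * |anti c x| ≤ 0 := by linarith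
            exact h4
          intro x hx
          have h5 : ∀ y ∈ univ.filter (fun x : ZMod m => addOrderOf x ≠ 35),
              0 ≤ wo (addOrderOf y) * |anti c y| := by
            intro y _
            have := wo_pos (addOrderOf y)
            positivity
          have h6 := (Finset.sum_eq_zero_iff_of_nonneg h5).1 (le_antisymm h1
            (Finset.sum_nonneg h5)) x (by rw [Finset.mem_filter]; exact ⟨Finset.mem_univ _, hx⟩)
          have h7 := wo_pos (addOrderOf x)
          rcases mul_eq_zero.1 h6 with h8 | h8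
          · omega
          · exact abs_eq_zero.1 h8
        obtain ⟨t', ht'⟩ := ZMod.unitsMap_surjective hD t
        have h1 := hT t'
        have h2 : ∑ x, anti c x * saw m ((t' : ZMod m) * x) =
            ∑ z : (ZMod 35)ˣ, anti c (emb 35 m (z : ZMod 35)) *
              (((m / 35 : ℕ) : ℤ) * saw 35 ((t : ZMod 35) * z)) := by
          classical
          have h3 : ∑ x, anti c x * saw m ((t' : ZMod m) * x) =
              ∑ x ∈ univ.image (fun z : (ZMod 35)ˣ => emb 35 m (z : ZMod 35)),
                anti c x * saw m ((t' : ZMod m) * x) := by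
            symm
            apply Finset.sum_subset (Finset.subset_univ _)
            intro x _ hx
            rw [hs x, zero_mul]
            intro h
            obtain ⟨z, hz⟩ := exists_emb x h
            exact hx (Finset.mem_image.2 ⟨z, Finset.mem_univ _, hz⟩)
          rw [h3, Finset.sum_image (fun z _ w _ h => Units.ext (emb_injective hD h))]
          apply Finset.sum_congr rfl
          intro z _
          congr 1
          rw [mul_emb hD]
          have h4 : (ZMod.castHom hD (ZMod 35) (t' : ZMod m)) = (t : ZMod 35) := by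
            rw [← ht']; rfl
          rw [h4]
          have h5 : (t : ZMod 35) * z = ((t * z : (ZMod 35)ˣ) : ZMod 35) := by simp
          rw [h5]
          have hne : emb 35 m ((t * z : (ZMod 35)ˣ) : ZMod 35) ≠ 0 := by
            intro h0
            have h6 := addOrderOf_emb hD (t * z)
            rw [h0, addOrderOf_zero] at h6
            norm_num at h6
          have hne' : ((t * z : (ZMod 35)ˣ) : ZMod 35) ≠ 0 := by
            intro h0
            apply hne
            rw [h0, emb_zero]
          unfold saw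
          rw [if_neg hne, if_neg hne', emb_val hD]
          have h7 : (m : ℤ) = (35 : ℤ) * ((m / 35 : ℕ) : ℤ) := by
            exact_mod_cast (Nat.mul_div_cancel' hD).symm
          push_cast at h7 ⊢
          nlinarith
        rw [h2] at h1
        have h3 : ((m / 35 : ℕ) : ℤ) * ∑ z : (ZMod 35)ˣ, anti c (emb 35 m (z : ZMod 35)) *
            saw 35 ((t : ZMod 35) * z) = 0 := by
          rw [← h1, Finset.mul_sum]
          exact Finset.sum_congr rfl fun z _ => by ring
        rcases mul_eq_zero.1 h3 with h4 | h4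
        · exfalso
          have h5 : m / 35 = 0 := by exact_mod_cast h4
          have h6 := Nat.div_pos (Nat.le_of_dvd (Nat.pos_of_ne_zero (NeZero.ne m)) hD)
            (show 0 < 35 by norm_num)
          omega
        · exact h4
    · exact dec_ex D (Nat.Coprime.coprime_dvd_left hD h6) h35 _ hodd
        (fun L _ hL => mdiff_anti m D hD c hT h L hL) hn
  · intro x _
    exact Nat.le_of_dvd (Nat.pos_of_ne_zero (NeZero.ne m)) (addOrderOf_dvd' x)

end Pool.Agent.helper76.LP
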