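import Pool.Agent.helper76.LP.Defs
import Pool.Agent.helper34.DH.Main

/-! # Project QR: classes in the quotient of helper34 -/

namespace Pool.Agent.helper76.LP

open Finset

/-- norm on the elements of order divisible by 4 -/
noncomputable def norm4 {m : ℕ} [NeZero m] (F : ZMod m → ℤ) : ℤ :=
  ∑ x, if 4 ∣ addOrderOf x then |F x| else 0

open Pool.Agent.helper34.DH in
/-- the class of `x / m` -/
noncomputable def cl (m : ℕ) (x : ZMod m) : Qt := F ((x.val : ℚ) / m)

open Pool.Agent.helper34.DH in
/-- the class of a function on `ZMod m` -/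
noncomputable def cls (m : ℕ) [NeZero m] (c : ZMod m → ℤ) : Qt := ∑ x, c x • cl m x

end Pool.Agent.helper76.LP
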