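import Pool.Agent.helper76.LP.Fin

/-! # Project FQ (degrees with few primes): definitions -/

namespace Pool.Agent.helper76.LP

open Finset

/-- decomposition of an odd function on the units modulo `D` into odd functions invariant under the
`Gam D p`, without a bound for the cost -/
def NDec (D : ℕ) [NeZero D] (f : (ZMod D)ˣ → ℤ) : Prop :=
  ∃ N : ℕ → (ZMod D)ˣ → ℤ, (∀ p ∈ D.primeFactors, ∀ u ∈ Gam D p, ∀ x, N p (u * x) = N p x) ∧
    (∀ x, f x = ∑ p ∈ D.primeFactors, N p x) ∧
    (∀ p ∈ D.primeFactors, ∀ x, N p (-x) = - N p x)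

/-- decomposition of `f` into functions invariant under the `Γ i` -/
def GDec0 {G ι : Type*} [CommGroup G] (Γ : ι → Subgroup G) (L : List ι) (f : G → ℤ) : Prop :=
  ∃ N : ι → G → ℤ, (∀ i ∈ L, ∀ u ∈ Γ i, ∀ x, N i (u * x) = N i x) ∧
    (∀ x, f x = (L.map (fun i => N i x)).sum)

/-- the same with all functions odd with respect to `e` -/
def GDec {G ι : Type*} [CommGroup G] (Γ : ι → Subgroup G) (L : List ι) (e : G)
    (f : G → ℤ) : Prop :=
  ∃ N : ι → G → ℤ, (∀ i ∈ L, ∀ u ∈ Γ i, ∀ x, N i (u * x) = N i x) ∧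
    (∀ x, f x = (L.map (fun i => N i x)).sum) ∧ (∀ i ∈ L, ∀ x, N i (e * x) = - N i x)

/-- transport of a function from `ZMod D` to `ZMod m` -/
def push (D m : ℕ) [NeZero D] (e : ZMod D → ℤ) (x : ZMod m) : ℤ :=
  ∑ y : ZMod D, if emb D m y = x then e y else 0

open Pool.Agent.helper34.DH Pool.Agent.helper76.FV in
/-- Tate classes on Fermat surfaces: the multisets `pts z`, `z` a Tate character of the surface
`x_0^N + x_1^N + x_2^N + x_3^N = 0` -/
def IsSurf (u : Multiset QZ) : Prop :=
  ∃ (N : ℕ) (z : Fin (2 * 1 + 2) → ZMod N), 0 < N ∧ IsTateFermat N 1 z ∧ u = pts z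

open Pool.Agent.helper34.DH in
/-- equality of multisets up to standard elements and Tate classes on Fermat surfaces -/
def SurfEquiv (s t : Multiset QZ) : Prop :=
  ∃ S T : Multiset (Multiset QZ), (∀ u ∈ S, IsStd u ∨ IsSurf u) ∧ (∀ u ∈ T, IsStd u ∨ IsSurf u) ∧
    s + S.sum = t + T.sum

open Pool.Agent.helper34.DH in
/-- the subgroup generated by standard elements and surface classes -/
noncomputable def R2 : AddSubgroup (QZ →₀ ℤ) :=
  AddSubgroup.closure {r | ∃ s, (IsStd s ∨ IsSurf s) ∧ r = helper34.DH.emb s}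

open Pool.Agent.helper34.DH in
/-- the subgroup of `Qt` generated by the surface classes and the class of `1/2` -/
noncomputable def E1 : AddSubgroup Qt :=
  AddSubgroup.closure {q | (∃ u, IsSurf u ∧ q = mk (helper34.DH.emb u)) ∨ q = hh}

end Pool.Agent.helper76.LP
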