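import Pool.Agent.helper76.LP.Main

/-! # Project QR: the theorem for Tate characters -/

namespace Pool.Agent.helper76.LP

open Finset Pool.Agent.helper76.FV

/-- `1` for odd `m`, `2` for even `m` -/
def eps (m : ℕ) : ℕ := if Even m then 2 else 1

/-- multiplicities -/
def cnt {m k : ℕ} (a : Fin k → ZMod m) (x : ZMod m) : ℤ := ∑ i, if a i = x then 1 else 0

lemma sum_cnt_smul {m k : ℕ} [NeZero m] {A : Type*} [AddCommGroup A] (a : Fin k → ZMod m)
    (φ : ZMod m → A) : ∑ x, cnt a x • φ x = ∑ i, φ (a i) := by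
  unfold cnt
  simp_rw [Finset.sum_smul]
  rw [Finset.sum_comm]
  apply Finset.sum_congr rfl
  intro i _
  rw [Finset.sum_eq_single (a i)]
  · simp
  · intro x _ hx
    rw [if_neg (Ne.symm hx), zero_smul]
  · intro h; exact absurd (Finset.mem_univ _) h

lemma saw_neg (m : ℕ) [NeZero m] (x : ZMod m) : saw m (-x) = - saw m x := by
  unfold saw
  by_cases h : x = 0
  · simp [h]
  · have h' : -x ≠ 0 := neg_ne_zero.2 h
    rw [if_neg h, if_neg h', ZMod.neg_val, if_neg h]
    have := (ZMod.val_lt x).le
    push_cast [Nat.cast_sub this]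
    ring

lemma tateF_anti (m : ℕ) [NeZero m] {k : ℕ} (a : Fin k → ZMod m) (h : TateM m a) :
    TateF (anti (cnt a)) := by
  intro t
  have h1 : ∑ x, anti (cnt a) x * saw m ((t : ZMod m) * x) =
      2 * ∑ x, cnt a x * saw m ((t : ZMod m) * x) := by
    unfold anti
    simp_rw [sub_mul]
    rw [Finset.sum_sub_distrib]
    have h2 : ∑ x, cnt a (-x) * saw m ((t : ZMod m) * x) =
        - ∑ x, cnt a x * saw m ((t : ZMod m) * x) := by
      rw [← Equiv.sum_comp (Equiv.neg (ZMod m)), ← Finset.sum_neg_distrib]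
      apply Finset.sum_congr rfl
      intro x _
      rw [Equiv.neg_apply, neg_neg, mul_neg, saw_neg]
      ring
    rw [h2]; ring
  rw [h1]
  have h3 := sum_cnt_smul a (fun x => saw m ((t : ZMod m) * x))
  simp only [smul_eq_mul] at h3
  rw [h3]
  have h4 : ∀ i, saw m ((t : ZMod m) * a i) = 2 * ((((t : ZMod m) * a i).val : ℕ) : ℤ) - m := by
    intro i
    unfold saw
    rw [if_neg]
    intro h0
    exact h.1 i ((Units.mul_right_eq_zero t).1 h0)
  rw [Finset.sum_congr rfl fun i _ => h4 i, Finset.sum_sub_distrib, ← Finset.mul_sum,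
    Finset.sum_const, Finset.card_univ, Fintype.card_fin]
  have h5 : (2 : ℤ) * ∑ i, ((((t : ZMod m) * a i).val : ℕ) : ℤ) = k * m := by
    exact_mod_cast h.2 t
  rw [h5]
  simp

lemma wo_le (m : ℕ) [NeZero m] (x : ZMod m) : wo (addOrderOf x) ≤ eps m := by
  unfold wo eps
  split_ifs with h1 h2 h2
  · norm_num
  · exfalso
    apply h2
    have h3 := addOrderOf_dvd' x
    have h4 : 2 ∣ addOrderOf x := by omega
    exact even_iff_two_dvd.2 (h4.trans h3)
  · norm_num
  · norm_num

lemma normw_anti_le (m : ℕ) [NeZero m] {k : ℕ} (a : Fin k → ZMod m) :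
    normw (anti (cnt a)) ≤ 2 * eps m * k := by
  unfold normw
  have hc : ∀ x, 0 ≤ cnt a x := fun x => Finset.sum_nonneg fun i _ => by split_ifs <;> simp
  have h1 : ∑ x, cnt a x = k := by
    have := sum_cnt_smul a (fun _ => (1 : ℤ))
    simpa using this
  have h2 : ∑ x, cnt a (-x) = k := by
    rw [← h1]; exact Equiv.sum_comp (Equiv.neg (ZMod m)) (cnt a)
  calc ∑ x, wo (addOrderOf x) * |anti (cnt a) x|
      ≤ ∑ x, (eps m : ℤ) * (cnt a x + cnt a (-x)) := by
        apply Finset.sum_le_sum
        intro x _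
        have h3 : |anti (cnt a) x| ≤ cnt a x + cnt a (-x) := by
          unfold anti
          rw [abs_le]
          have := hc x
          have := hc (-x)
          constructor <;> linarith
        have h4 := wo_le m x
        have h5 := wo_pos (addOrderOf x)
        have h6 := abs_nonneg (anti (cnt a) x)
        nlinarith
    _ = 2 * eps m * k := by
        rw [← Finset.mul_sum, Finset.sum_add_distrib, h1, h2]; ring

lemma norm4_anti_le (m : ℕ) [NeZero m] {k : ℕ} (a : Fin k → ZMod m) :
    norm4 (anti (cnt a)) ≤ 2 * k := by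
  unfold norm4
  have hc : ∀ x, 0 ≤ cnt a x := fun x => Finset.sum_nonneg fun i _ => by split_ifs <;> simp
  have h1 : ∑ x, cnt a x = k := by
    have := sum_cnt_smul a (fun _ => (1 : ℤ))
    simpa using this
  have h2 : ∑ x, cnt a (-x) = k := by
    rw [← h1]; exact Equiv.sum_comp (Equiv.neg (ZMod m)) (cnt a)
  calc ∑ x, (if 4 ∣ addOrderOf x then |anti (cnt a) x| else 0)
      ≤ ∑ x, (cnt a x + cnt a (-x)) := by
        apply Finset.sum_le_sum
        intro x _
        have h3 : |anti (cnt a) x| ≤ cnt a x + cnt a (-x) := by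
          unfold anti
          rw [abs_le]
          have := hc x
          have := hc (-x)
          constructor <;> linarith
        have := hc x
        have := hc (-x)
        split_ifs
        · exact h3
        · linarith
    _ = 2 * k := by
        rw [Finset.sum_add_distrib, h1, h2]; ring

open Pool.Agent.helper34.DH in
/-- from the classes to standard equivalence -/
theorem stdEquiv_of_cls (m : ℕ) [NeZero m] (d : ℕ) (a : Fin (2 * d) → ZMod m)
    (h0 : ∀ i, a i ≠ 0) (h : ∃ j : ℤ, cls m (cnt a) = j • hh) : StdEquiv (pts a) 0 := by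
  have hm : 0 < m := Nat.pos_of_ne_zero (NeZero.ne m)
  obtain ⟨j, hj⟩ := h
  have h1 : cls m (cnt a) = ∑ i, F (frac m a i) := sum_cnt_smul a (cl m)
  have h2 := mk_ptsQ (frac m a) (pts_ne_zero hm a h0)
  rw [← h1, hj, zsmul_hh] at h2
  rw [stdEquiv_iff, _root_.map_zero, sub_zero]
  have hd := deg_emb (pts a)
  have hcard : Multiset.card (pts a) = 2 * d := by
    unfold pts; rw [Multiset.card_map]; simp
  rw [← mk_eq_zero]
  change mk (helper34.DH.emb (ptsQ (frac m a))) = 0
  rw [h2]
  split_ifs with hodd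
  · exfalso
    rw [if_pos hodd] at h2
    have h3 : helper34.DH.emb (ptsQ (frac m a)) - Finsupp.single half 1 ∈ R := by
      rw [← mk_eq_zero, map_sub, h2, ← rho_of_ne half_ne_zero, rho_half, sub_self]
    have h4 := deg_R h3
    rw [map_sub, deg_single, deg_emb] at h4
    change (2 : ℤ) ∣ (Multiset.card (pts a) : ℤ) - 1 at h4
    rw [hcard] at h4
    push_cast at h4
    omega
  · rfl

open Pool.Agent.helper34.DH in
/-- the converse -/
theorem tateM_of_stdEquiv (m : ℕ) (hm : 0 < m) (k : ℕ) (a : Fin k → ZMod m)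
    (h0 : ∀ i, a i ≠ 0) (h : StdEquiv (pts a) 0) : TateM m a := by
  rw [tateM_iff m hm]
  rw [stdEquiv_iff, _root_.map_zero, sub_zero] at h
  have h1 : helper34.DH.emb (ptsQ (fun i : Fin 0 => (0 : ℚ))) - helper34.DH.emb (ptsQ (frac m a)) ∈ R := by
    have h2 : ptsQ (fun i : Fin 0 => (0 : ℚ)) = 0 := by
      unfold ptsQ; simp
    rw [h2, _root_.map_zero, zero_sub]
    exact R.neg_mem h
  refine tate_transfer _ _ (fun i => (FZ_ne m hm a i).2 (h0 i)) h1 ⟨fun i => i.elim0, ?_⟩
  intro t _
  simp

/-- the quadratic range: `8 d < φ(x) φ(y)` (`16 d` if `m` is even and `x, y` are odd) for all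
`x < y` among the odd primes dividing `m` and `4` if `4 ∣ m`; or `m` is prime to 6 and `d ≤ 3` -/
def Good (m d : ℕ) : Prop :=
  (∀ x y, Lam m x → Lam m y → x < y →
    (if Even m ∧ Odd x ∧ Odd y then 16 else 8) * d < x.totient * y.totient) ∨
    (Nat.Coprime m 6 ∧ d ≤ 3)

open Pool.Agent.helper34.DH in
/-- the theorem -/
theorem tate_quadratic (m : ℕ) (hm : 0 < m) (d : ℕ) (h : Good m d)
    {s : ℕ} (π : Fin (2 * d) → Fin s) (a : Fin (2 * d) → ZMod m) :
    IsTateChar m π a ↔ (∀ i, a i ≠ 0) ∧ BlockZero π a ∧ StdEquiv (pts a) 0 := by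
  have : NeZero m := ⟨hm.ne'⟩
  rw [isTateChar_iff m hm]
  constructor
  · rintro ⟨hb, hT⟩
    refine ⟨hT.1, hb, stdEquiv_of_cls m d a hT.1 ?_⟩
    have h1 := tateF_anti m a hT
    have h2 := normw_anti_le m a
    have h3 := norm4_anti_le m a
    rcases h with h | ⟨h6, hd⟩
    · have hs : ∀ x y, Lam m x → Lam m y → x ≠ y →
          (if Even m ∧ Odd x ∧ Odd y then 16 else 8) * d < x.totient * y.totient := by
        intro x y hx hy hxy
        rcases Nat.lt_or_gt_of_ne hxy with h4 | h4
        · exact h x y hx hy h4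
        · have h5 := h y x hy hx h4
          rw [mul_comm x.totient]
          have h6 : (Even m ∧ Odd x ∧ Odd y) ↔ (Even m ∧ Odd y ∧ Odd x) := by tauto
          rw [if_congr h6 rfl rfl]
          exact h5
      refine cls_quadratic m (4 * eps m * d) (4 * d) ?_ ?_ _ h1 ?_ ?_
      · intro x y hx hy hxy
        have := hs x y hx hy hxy
        split_ifs at this <;> nlinarith
      · intro x y hx hy hxy ox oy
        have := hs x y hx hy hxy
        unfold eps
        by_cases he : Even m
        · rw [if_pos ⟨he, ox, oy⟩] at this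
          rw [if_pos he]; linarith
        · rw [if_neg (fun h => he h.1)] at this
          rw [if_neg he]; linarith
      · push_cast at h2 ⊢; linarith
      · push_cast at h3 ⊢; linarith
    · refine cls_fourfold m h6 _ h1 (h2.trans ?_)
      have h7 : eps m = 1 := by
        unfold eps
        rw [if_neg]
        intro he
        have h8 : 2 ∣ Nat.gcd m 6 := Nat.dvd_gcd (even_iff_two_dvd.1 he) (by norm_num)
        rw [h6] at h8
        omega
      rw [h7]
      push_cast
      have : (d : ℤ) ≤ 3 := by exact_mod_cast hd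
      linarith
  · rintro ⟨h0, hb, hs⟩
    exact ⟨hb, tateM_of_stdEquiv m hm _ a h0 hs⟩

end Pool.Agent.helper76.LP
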